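import Pool.Agent.H22Z.Edge.Loop

set_option autoImplicit false

namespace Pool.Agent.H22Z.Edge

open Classical

section
variable {V : Type} {n : ℕ} (α : Fin n → Fin n → V) (W1 W2 : V → ℕ → V) (CW : ℕ → ℕ → V)
  (L D : ℕ)

/-- the state entered at an event of age `b` that ends a long run -/
noncomputable def qv (w : ℕ → Fin n) (b : ℕ) : V :=
  if first (ev w) (b + 1 + D) L = L then α (w (b + 1)) (w b)
  else W1 (α (w (b + 1)) (w (b + 1))) (first (ev w) (b + 1 + D) L + 1)

/-- the state when the oldest pending event has age `b` -/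
noncomputable def pend (w : ℕ → Fin n) (b : ℕ) : V :=
  if first (ev w) (b + 1) D < D then
    CW (first (ev w) (b + 1) D + 1) (b + first (ev w) (b + 1) D + 1 - D)
  else W2 (qv α W1 L D w b) b

/-- the state as a function of the past -/
noncomputable def st (w : ℕ → Fin n) : V :=
  if ∃ b < D, ev w b then pend α W1 W2 CW L D w (Nat.findGreatest (ev w) (D - 1))
  else W1 (α (w 0) (w 0)) (first (ev w) D L)

theorem st_pend (w : ℕ → Fin n) (b : ℕ) (hb : b < D) (he : ev w b)
    (hmax : ∀ k, b < k → k < D → ¬ ev w k) :
    st α W1 W2 CW L D w = pend α W1 W2 CW L D w b := by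
  have h : ∃ b < D, ev w b := ⟨b, hb, he⟩
  have : Nat.findGreatest (ev w) (D - 1) = b := by
    rw [Nat.findGreatest_eq_iff]
    refine ⟨by omega, fun _ => he, ?_⟩
    intro k hk hk'
    exact hmax k hk (by omega)
  simp only [st, h, if_true, this]

theorem st_free (w : ℕ → Fin n) (h : ∀ b < D, ¬ ev w b) :
    st α W1 W2 CW L D w = W1 (α (w 0) (w 0)) (first (ev w) D L) := by
  have h' : ¬ ∃ b < D, ev w b := fun ⟨b, hb, he⟩ => h b hb he
  simp only [st, h', if_false]

theorem exists_oldest (w : ℕ → Fin n) (h : ∃ b < D, ev w b) :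
    ∃ b < D, ev w b ∧ ∀ k, b < k → k < D → ¬ ev w k := by
  obtain ⟨b, hb, he⟩ := h
  refine ⟨Nat.findGreatest (ev w) (D - 1), ?_, ?_, ?_⟩
  · have := Nat.findGreatest_le (P := ev w) (D - 1); omega
  · exact Nat.findGreatest_spec (P := ev w) (m := b) (by omega) he
  · intro k hk hk'
    exact Nat.findGreatest_is_greatest hk (by omega)

theorem st_local (w w' : ℕ → Fin n) (h : ∀ k < 2 * D + L + 5, w k = w' k) :
    st α W1 W2 CW L D w = st α W1 W2 CW L D w' := by
  have he : ∀ k < 2 * D + L + 2, (ev w k ↔ ev w' k) := by
    intro k hk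
    simp only [ev, h k (by omega), h (k + 1) (by omega), h (k + 2) (by omega),
      h (k + 3) (by omega)]
  by_cases hp : ∃ b < D, ev w b
  · obtain ⟨b, hb, hev, hmax⟩ := exists_oldest D w hp
    rw [st_pend α W1 W2 CW L D w b hb hev hmax,
      st_pend α W1 W2 CW L D w' b hb ((he b (by omega)).1 hev)
        (fun k hk hk' hc => hmax k hk hk' ((he k (by omega)).2 hc))]
    have e1 : first (ev w) (b + 1) D = first (ev w') (b + 1) D :=
      first_congr _ _ _ _ _ (fun k hk => he _ (by omega))
    have e2 : first (ev w) (b + 1 + D) L = first (ev w') (b + 1 + D) L :=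
      first_congr _ _ _ _ _ (fun k hk => he _ (by omega))
    simp only [pend, qv, e1, e2, h b (by omega), h (b + 1) (by omega)]
  · have h1 : ∀ b < D, ¬ ev w b := fun b hb hc => hp ⟨b, hb, hc⟩
    have h2 : ∀ b < D, ¬ ev w' b := fun b hb hc => h1 b hb ((he b (by omega)).2 hc)
    rw [st_free α W1 W2 CW L D w h1, st_free α W1 W2 CW L D w' h2]
    have e1 : first (ev w) D L = first (ev w') D L :=
      first_congr _ _ _ _ _ (fun k hk => he _ (by omega))
    rw [e1, h 0 (by omega)]

end

/-- The local loop lemma, in the form needed here. -/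
theorem local_loop {V : Type} {n : ℕ} (T : (Fin n → V) → V) (G : V → V → Prop)
    (hid : ∀ v, T (fun _ => v) = v)
    (hG : ∀ g h : Fin n → V, (∀ j, G (g j) (h j)) → G (T g) (T h))
    (hn : 0 < n) (r : V) (L : ℕ) (hL : 0 < L)
    (hout : ∀ p, Walk G L r p) (hin : ∀ p m, 4 ≤ m → Walk G m p r)
    (hcyc : ∀ g, 2 ≤ g → Walk G g r r)
    (α : Fin n → Fin n → V) (hα : ∀ i, G (α i i) (T (α i))) :
    ∃ v, G v v := by
  obtain ⟨D, hD⟩ : ∃ D : ℕ, D = 2 * n + 4 := ⟨_, rfl⟩
  choose W1 hW10 hW1L hW1e using hout
  choose W2 hW20 hW2D hW2e using fun p => hin p D (by omega)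
  have hcyc' : ∀ g, ∃ ω : ℕ → V, 2 ≤ g → (ω 0 = r ∧ ω g = r ∧ ∀ k < g, G (ω k) (ω (k + 1))) := by
    intro g
    by_cases hg : 2 ≤ g
    · obtain ⟨ω, h⟩ := hcyc g hg
      exact ⟨ω, fun _ => h⟩
    · exact ⟨fun _ => r, fun h => absurd h hg⟩
  choose CW hCW using hcyc'
  refine loop_of_fun T G hid hG (st α W1 W2 CW L D) (fun _ => ⟨0, hn⟩) ?_ (2 * D + L + 5)
    (st_local α W1 W2 CW L D)
  intro w
  have hpt : ∀ v, (∀ j, G v (st α W1 W2 CW L D (cons j w))) →
      G v (T (fun j => st α W1 W2 CW L D (cons j w))) := by
    intro v h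
    have := hG (fun _ => v) _ h
    rwa [hid] at this
  have hsh : ∀ j s m, first (ev (cons j w)) (s + 1) m = first (ev w) s m := by
    intro j s m
    apply first_congr
    intro k _
    have : s + 1 + k = (s + k) + 1 := by omega
    rw [this]; exact ev_cons j w _
  by_cases hp : ∃ b < D, ev w b
  · obtain ⟨b, hb, hev, hmax⟩ := exists_oldest D w hp
    rw [st_pend α W1 W2 CW L D w b hb hev hmax]
    obtain ⟨g, hg⟩ : ∃ g, g = first (ev w) (b + 1) D := ⟨_, rfl⟩
    obtain ⟨s1, s2⟩ := first_spec (ev w) D (b + 1)
    rw [← hg] at s1 s2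
    have hg1 : g < D → 1 ≤ g := by
      intro hlt
      by_contra h0
      have : g = 0 := by omega
      subst this
      exact ev_gap w b hev (s2 hlt)
    have hg2 : g < D → D ≤ b + 1 + g := by
      intro hlt
      by_contra h0
      exact hmax (b + 1 + g) (by omega) (by omega) (s2 hlt)
    apply hpt
    intro j
    by_cases hb1 : b + 1 < D
    · rw [st_pend α W1 W2 CW L D (cons j w) (b + 1) hb1 ((ev_cons j w b).2 hev) (by
        intro k hk hk'
        obtain ⟨k, rfl⟩ : ∃ k', k = k' + 1 := ⟨k - 1, by omega⟩
        rw [ev_cons]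
        exact hmax k (by omega) (by omega))]
      have e1 : first (ev (cons j w)) (b + 1 + 1) D = g := by rw [hsh, hg]
      have e2 : first (ev (cons j w)) (b + 1 + 1 + D) L = first (ev w) (b + 1 + D) L := by
        have : b + 1 + 1 + D = (b + 1 + D) + 1 := by omega
        rw [this, hsh]
      have e3 : qv α W1 L D (cons j w) (b + 1) = qv α W1 L D w b := by
        simp only [qv, e2]; rfl
      simp only [pend, e1, e3, ← hg]
      by_cases hlt : g < D
      · simp only [hlt, if_true]
        have a1 := hg1 hlt
        have a2 := hg2 hlt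
        have : b + 1 + g + 1 - D = (b + g + 1 - D) + 1 := by omega
        rw [this]
        exact (hCW (g + 1) (by omega)).2.2 _ (by omega)
      · simp only [hlt, if_false]
        exact hW2e _ b hb
    · have hbD : b + 1 = D := by omega
      have hevD : ev (cons j w) D := by rw [← hbD]; exact (ev_cons j w b).2 hev
      have hr : st α W1 W2 CW L D (cons j w) = r := by
        by_cases hp' : ∃ b < D, ev (cons j w) b
        · obtain ⟨b', hb', hev', hmax'⟩ := exists_oldest D (cons j w) hp'
          rw [st_pend α W1 W2 CW L D (cons j w) b' hb' hev' hmax']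
          have e1 : first (ev (cons j w)) (b' + 1) D = D - (b' + 1) := by
            apply first_eq _ _ _ _ (by omega)
            · intro k hk
              exact hmax' _ (by omega) (by omega)
            · intro _
              have : b' + 1 + (D - (b' + 1)) = D := by omega
              rw [this]; exact hevD
          have e2 : b' + 1 ≠ D := by
            intro e
            exact ev_gap _ b' hev' (by rw [e]; exact hevD)
          have e3 : D - (b' + 1) < D := by omega
          have e4 : b' + (D - (b' + 1)) + 1 - D = 0 := by omega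
          simp only [pend, e1, e3, if_true, e4]
          exact (hCW _ (by omega)).1
        · have h1 : ∀ b < D, ¬ ev (cons j w) b := fun b hb hc => hp' ⟨b, hb, hc⟩
          rw [st_free α W1 W2 CW L D _ h1]
          have e1 : first (ev (cons j w)) D L = 0 :=
            first_eq _ _ _ _ (by omega) (fun k hk => by omega) (fun _ => hevD)
          rw [e1, hW10]
      rw [hr]
      simp only [pend, ← hg]
      by_cases hlt : g < D
      · simp only [hlt, if_true]
        have a1 := hg1 hlt
        have : b + g + 1 - D = g := by omega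
        rw [this]
        have h3 := (hCW (g + 1) (by omega)).2.2 g (by omega)
        rwa [(hCW (g + 1) (by omega)).2.1] at h3
      · simp only [hlt, if_false]
        have h3 := hW2e (qv α W1 L D w b) b hb
        rwa [hbD, hW2D] at h3
  · have h1 : ∀ b < D, ¬ ev w b := fun b hb hc => hp ⟨b, hb, hc⟩
    have hrun : w 0 = w 1 := run_of_noev w D (by omega) h1
    rw [st_free α W1 W2 CW L D w h1]
    obtain ⟨a, ha⟩ : ∃ a, a = first (ev w) D L := ⟨_, rfl⟩
    have haL : a ≤ L := by rw [ha]; exact first_le _ _ _
    obtain ⟨s1, s2⟩ := first_spec (ev w) L D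
    rw [← ha] at s1 s2 ⊢
    have hnext : ∀ j, st α W1 W2 CW L D (cons j w) =
        if a = L then α (w 0) j else W1 (α (w 0) (w 0)) (a + 1) := by
      intro j
      have hno : ∀ k, 0 < k → k ≤ D → ¬ ev (cons j w) k := by
        intro k hk hk'
        obtain ⟨k, rfl⟩ : ∃ k', k = k' + 1 := ⟨k - 1, by omega⟩
        rw [ev_cons]
        exact h1 k (by omega)
      by_cases hj : j = w 0
      · have h2 : ∀ b < D, ¬ ev (cons j w) b := by
          intro b hb
          cases b with
          | zero => exact fun hc => hc.1 hj
          | succ b => exact hno _ (by omega) (by omega)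
        rw [st_free α W1 W2 CW L D _ h2]
        have e0 : cons j w 0 = w 0 := hj
        rw [e0]
        have e1 : first (ev (cons j w)) D L = min L (a + 1) := by
          apply first_eq _ _ _ _ (by omega)
          · intro k hk
            cases k with
            | zero => exact hno D (by omega) le_rfl
            | succ k =>
              have : D + (k + 1) = (D + k) + 1 := by omega
              rw [this, ev_cons]
              exact s1 k (by omega)
          · intro hlt
            have e2 : min L (a + 1) = a + 1 := by omega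
            have : D + (a + 1) = (D + a) + 1 := by omega
            rw [e2, this, ev_cons]
            exact s2 (by omega)
        rw [e1]
        by_cases haL' : a = L
        · have : min L (a + 1) = L := by omega
          rw [this, if_pos haL', hW1L, hj]
        · have : min L (a + 1) = a + 1 := by omega
          rw [this, if_neg haL']
      · have hev0 : ev (cons j w) 0 := ⟨hj, Or.inl hrun⟩
        rw [st_pend α W1 W2 CW L D (cons j w) 0 (by omega) hev0
          (fun k hk hk' => hno k hk hk'.le)]
        have e1 : first (ev (cons j w)) (0 + 1) D = D := by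
          apply first_eq _ _ _ _ le_rfl
          · intro k hk
            exact hno _ (by omega) (by omega)
          · intro h; omega
        have e2 : first (ev (cons j w)) (0 + 1 + D) L = a := by
          have : 0 + 1 + D = D + 1 := by omega
          rw [this, hsh, ha]
        simp only [pend, e1, lt_irrefl, if_false, hW20, qv, e2]
        rfl
    by_cases haL' : a = L
    · have : (fun j => st α W1 W2 CW L D (cons j w)) = α (w 0) := by
        funext j; rw [hnext, if_pos haL']
      rw [this, haL', hW1L]
      exact hα _
    · apply hpt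
      intro j
      rw [hnext, if_neg haL']
      exact hW1e _ a (by omega)

end Pool.Agent.H22Z.Edge
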