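import Mathlib

set_option autoImplicit false

namespace Pool.Agent.H22Z.Edge

open Classical

/-- walks of a given length in a digraph -/
def Walk {V : Type} (G : V → V → Prop) (m : ℕ) (p q : V) : Prop :=
  ∃ ω : ℕ → V, ω 0 = p ∧ ω m = q ∧ ∀ k < m, G (ω k) (ω (k + 1))

theorem Walk.single {V : Type} {G : V → V → Prop} {p q : V} (h : G p q) : Walk G 1 p q := by
  refine ⟨fun k => if k = 0 then p else q, by simp, by simp, ?_⟩
  intro k hk
  have : k = 0 := by omega
  subst this
  simpa using h

theorem Walk.trans {V : Type} {G : V → V → Prop} {m m' : ℕ} {p q s : V}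
    (h : Walk G m p q) (h' : Walk G m' q s) : Walk G (m + m') p s := by
  obtain ⟨ω, h0, hm, he⟩ := h
  obtain ⟨ω', h0', hm', he'⟩ := h'
  refine ⟨fun k => if k ≤ m then ω k else ω' (k - m), by simp [h0], ?_, ?_⟩
  · by_cases hz : m' = 0
    · subst hz
      simp [hm, ← hm', h0']
    · have : ¬ (m + m' ≤ m) := by omega
      simp [this, hm']
  · intro k hk
    by_cases h1 : k + 1 ≤ m
    · have h2 : k ≤ m := by omega
      simp only [h1, h2, if_true]
      exact he k (by omega)
    · by_cases h2 : k ≤ m
      · have h3 : k = m := by omega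
        subst h3
        simp only [h1, le_refl, if_true, if_false]
        have : k + 1 - k = 0 + 1 := by omega
        rw [this, hm, ← h0']
        exact he' 0 (by omega)
      · simp only [h1, h2, if_false]
        have : k + 1 - m = (k - m) + 1 := by omega
        rw [this]
        exact he' _ (by omega)

/-- prepend a letter to an infinite past -/
def cons {n : ℕ} (j : Fin n) (w : ℕ → Fin n) : ℕ → Fin n
  | 0 => j
  | k + 1 => w k

/-- averaging over the next `m` letters -/
def avg {V : Type} {n : ℕ} (T : (Fin n → V) → V) (f : (ℕ → Fin n) → V) :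
    ℕ → (ℕ → Fin n) → V
  | 0, w => f w
  | m + 1, w => T (fun j => avg T f m (cons j w))

theorem loop_of_fun {V : Type} {n : ℕ} (T : (Fin n → V) → V) (G : V → V → Prop)
    (hid : ∀ v, T (fun _ => v) = v)
    (hG : ∀ g h : Fin n → V, (∀ j, G (g j) (h j)) → G (T g) (T h))
    (f : (ℕ → Fin n) → V) (w0 : ℕ → Fin n)
    (h1 : ∀ w, G (f w) (T (fun j => f (cons j w))))
    (N : ℕ) (h2 : ∀ w w' : ℕ → Fin n, (∀ k < N, w k = w' k) → f w = f w') :
    ∃ v, G v v := by
  have e1 : ∀ m w, G (avg T f m w) (avg T f (m + 1) w) := by
    intro m
    induction m with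
    | zero => intro w; exact h1 w
    | succ m ih =>
      intro w
      exact hG _ _ (fun j => ih (cons j w))
  have e2 : ∀ m (w w' : ℕ → Fin n), (∀ k, k + m < N → w k = w' k) →
      avg T f m w = avg T f m w' := by
    intro m
    induction m with
    | zero => intro w w' h; exact h2 w w' (fun k hk => h k (by omega))
    | succ m ih =>
      intro w w' h
      show T _ = T _
      congr 1
      funext j
      apply ih
      intro k hk
      cases k with
      | zero => rfl
      | succ k => exact h k (by omega)
  refine ⟨avg T f N w0, ?_⟩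
  have e3 : avg T f (N + 1) w0 = avg T f N w0 := by
    show T _ = _
    have : (fun j => avg T f N (cons j w0)) = fun _ => avg T f N w0 := by
      funext j
      exact e2 N _ _ (fun k hk => by omega)
    rw [this, hid]
  have := e1 N w0
  rwa [e3] at this

/-- events: the end of a run, or a strict peak not right after the end of a run -/
def ev {n : ℕ} (w : ℕ → Fin n) (k : ℕ) : Prop :=
  w k ≠ w (k + 1) ∧ (w (k + 1) = w (k + 2) ∨
    (w (k + 2) < w (k + 1) ∧ w k < w (k + 1) ∧ w (k + 2) ≠ w (k + 3)))

theorem ev_cons {n : ℕ} (j : Fin n) (w : ℕ → Fin n) (k : ℕ) :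
    ev (cons j w) (k + 1) ↔ ev w k := Iff.rfl

theorem ev_gap {n : ℕ} (w : ℕ → Fin n) (k : ℕ) (h : ev w k) : ¬ ev w (k + 1) := by
  rintro ⟨h1, h2⟩
  obtain ⟨_, h4⟩ := h
  rcases h4 with h4 | ⟨h4, _, h6⟩
  · exact h1 h4
  · rcases h2 with h2 | ⟨_, h2, _⟩
    · exact h6 h2
    · exact absurd h4 (not_lt.mpr h2.le)

theorem run_of_noev {n : ℕ} (w : ℕ → Fin n) (D : ℕ) (hD : 2 * n + 4 ≤ D)
    (h : ∀ b < D, ¬ ev w b) : w 0 = w 1 := by
  by_contra hne
  have hd : ∀ k ≤ D, w k ≠ w (k + 1) := by
    intro k
    induction k with
    | zero => intro _; exact hne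
    | succ k ih =>
      intro hk heq
      exact h k (by omega) ⟨ih (by omega), Or.inl heq⟩
  have hup : ∀ k, k + 2 ≤ D → w k < w (k + 1) → w (k + 1) < w (k + 2) := by
    intro k hk hlt
    by_contra hn
    have h1 : w (k + 2) < w (k + 1) :=
      lt_of_le_of_ne (not_lt.mp hn) (fun e => hd (k + 1) (by omega) e.symm)
    exact h k (by omega) ⟨hlt.ne, Or.inr ⟨h1, hlt, hd (k + 2) hk⟩⟩
  by_cases hn : w n < w (n + 1)
  · have a1 : ∀ m ≤ n, w (n + m) < w (n + m + 1) := by
      intro m
      induction m with
      | zero => intro _; exact hn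
      | succ m ih => intro hm; exact hup (n + m) (by omega) (ih (by omega))
    have a2 : ∀ m ≤ n, m ≤ (w (n + m) : ℕ) := by
      intro m
      induction m with
      | zero => intro _; omega
      | succ m ih =>
        intro hm
        have b1 := ih (by omega)
        have b2 : (w (n + m) : ℕ) < (w (n + m + 1) : ℕ) := a1 m (by omega)
        have : n + (m + 1) = n + m + 1 := by omega
        rw [this]; omega
    have := a2 n le_rfl
    have := (w (n + n)).isLt
    omega
  · have a1 : ∀ m ≤ n, ¬ w (n - m) < w (n - m + 1) := by
      intro m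
      induction m with
      | zero => intro _; exact hn
      | succ m ih =>
        intro hm hlt
        have b1 := hup (n - (m + 1)) (by omega) hlt
        have e1 : n - (m + 1) + 1 = n - m := by omega
        have e2 : n - (m + 1) + 2 = n - m + 1 := by omega
        rw [e1, e2] at b1
        exact ih (by omega) b1
    have a2 : ∀ m ≤ n, m ≤ (w (n - m) : ℕ) := by
      intro m
      induction m with
      | zero => intro _; omega
      | succ m ih =>
        intro hm
        have b1 := ih (by omega)
        have b2 := a1 (m + 1) hm
        have b3 := hd (n - (m + 1)) (by omega)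
        have e1 : n - (m + 1) + 1 = n - m := by omega
        rw [e1] at b2 b3
        have b4 : (w (n - m) : ℕ) ≤ (w (n - (m + 1)) : ℕ) := not_lt.mp b2
        have b5 : (w (n - (m + 1)) : ℕ) ≠ (w (n - m) : ℕ) := fun e => b3 (Fin.ext e)
        omega
    have := a2 n le_rfl
    have := (w (n - n)).isLt
    omega

/-- offset of the first event in `[s, s + m)`, or `m` -/
noncomputable def first (e : ℕ → Prop) : ℕ → ℕ → ℕ
  | _, 0 => 0
  | s, m + 1 => if e s then 0 else first e (s + 1) m + 1

theorem first_le (e : ℕ → Prop) : ∀ m s, first e s m ≤ m := by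
  intro m
  induction m with
  | zero => intro s; simp [first]
  | succ m ih =>
    intro s
    simp only [first]
    split_ifs
    · omega
    · have := ih (s + 1); omega

theorem first_congr (e e' : ℕ → Prop) : ∀ m s s', (∀ k < m, (e (s + k) ↔ e' (s' + k))) →
    first e s m = first e' s' m := by
  intro m
  induction m with
  | zero => intro s s' _; simp [first]
  | succ m ih =>
    intro s s' h
    have h0 : e s ↔ e' s' := h 0 (by omega)
    have h1 := ih (s + 1) (s' + 1) (fun k hk => by
      have := h (k + 1) (by omega)
      have e1 : s + 1 + k = s + (k + 1) := by omega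
      have e2 : s' + 1 + k = s' + (k + 1) := by omega
      rw [e1, e2]; exact this)
    simp only [first, h0, h1]

theorem first_eq (e : ℕ → Prop) : ∀ m s a, a ≤ m → (∀ k < a, ¬ e (s + k)) →
    (a < m → e (s + a)) → first e s m = a := by
  intro m
  induction m with
  | zero => intro s a ha _ _; simp only [first]; omega
  | succ m ih =>
    intro s a ha h1 h2
    cases a with
    | zero =>
      have : e s := h2 (by omega)
      simp [first, this]
    | succ a =>
      have h0 : ¬ e s := h1 0 (by omega)
      simp only [first, h0, if_false]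
      congr 1
      apply ih (s + 1) a (by omega)
      · intro k hk
        have := h1 (k + 1) (by omega)
        have e1 : s + 1 + k = s + (k + 1) := by omega
        rw [e1]; exact this
      · intro hlt
        have := h2 (by omega)
        have e1 : s + 1 + a = s + (a + 1) := by omega
        rw [e1]; exact this

theorem first_spec (e : ℕ → Prop) : ∀ m s, (∀ k < first e s m, ¬ e (s + k)) ∧
    (first e s m < m → e (s + first e s m)) := by
  intro m
  induction m with
  | zero => intro s; simp [first]
  | succ m ih =>
    intro s
    by_cases h0 : e s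
    · simp [first, h0]
    · obtain ⟨i1, i2⟩ := ih (s + 1)
      simp only [first, h0, if_false]
      constructor
      · intro k hk
        cases k with
        | zero => exact h0
        | succ k =>
          have := i1 k (by omega)
          have e1 : s + 1 + k = s + (k + 1) := by omega
          rwa [e1] at this
      · intro hlt
        have := i2 (by omega)
        have e1 : s + 1 + first e (s + 1) m = s + (first e (s + 1) m + 1) := by omega
        rwa [e1] at this

end Pool.Agent.H22Z.Edge
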