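import Pool.Agent.H22Z.Edge.Local

set_option autoImplicit false

namespace Pool.Agent.H22Z.Edge

/-- the subalgebra of the square generated by `(y,x)`, `(x,y)`, `(x,x)` -/
inductive Gen {B : Type} {n : ℕ} (T : (Fin n → B) → B) (x y : B) : B → B → Prop
  | r : Gen T x y y x
  | a : Gen T x y x y
  | e : Gen T x y x x
  | t (g h : Fin n → B) : (∀ j, Gen T x y (g j) (h j)) → Gen T x y (T g) (T h)

theorem const_triple {B : Type} {n : ℕ} (T : (Fin n → B) → B)
    (hid : ∀ v, T (fun _ => v) = v)
    (hT : ∀ j : Fin n, ∃ u v : Fin n → Bool, u j = true ∧ v j = false ∧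
      ∀ x y : B, T (fun k => cond (u k) x y) = T (fun k => cond (v k) x y))
    (R : B → B → B → Prop)
    (hR : ∀ f g h : Fin n → B, (∀ j, R (f j) (g j) (h j)) → R (T f) (T g) (T h))
    (x y : B) (h1 : R y y x) (h2 : R y x x) (h3 : R x y x) (h4 : R x x y) :
    ∃ c, R c c c := by
  rcases Nat.eq_zero_or_pos n with hn | hn
  · subst hn
    have : x = y := by
      rw [← hid x, ← hid y]
      congr 1
      funext j
      exact j.elim0
    subst this
    exact ⟨x, h1⟩
  let V := {p : B × B // Gen T x y p.1 p.2}
  let TV : (Fin n → V) → V := fun g =>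
    ⟨(T (fun j => (g j).1.1), T (fun j => (g j).1.2)), Gen.t _ _ (fun j => (g j).2)⟩
  let G : V → V → Prop := fun p q => p.1.2 = q.1.1 ∧ R p.1.1 q.1.2 p.1.2
  have hidV : ∀ v, TV (fun _ => v) = v := by
    intro v
    apply Subtype.ext
    show (T (fun _ => v.1.1), T (fun _ => v.1.2)) = v.1
    rw [hid, hid]
  have hG : ∀ g h : Fin n → V, (∀ j, G (g j) (h j)) → G (TV g) (TV h) := by
    intro g h hj
    refine ⟨?_, hR _ _ _ (fun j => (hj j).2)⟩
    show T _ = T _
    congr 1
    funext j
    exact (hj j).1
  have hW : ∀ (m : ℕ) (g h : Fin n → V), (∀ j, Walk G m (g j) (h j)) →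
      Walk G m (TV g) (TV h) := by
    intro m g h hj
    choose ω h0 hm he using hj
    refine ⟨fun k => TV (fun j => ω j k), ?_, ?_, ?_⟩
    · show TV _ = TV _
      congr 1; funext j; exact h0 j
    · show TV _ = TV _
      congr 1; funext j; exact hm j
    · intro k hk
      exact hG _ _ (fun j => he j k hk)
  let r : V := ⟨(y, x), Gen.r⟩
  let a : V := ⟨(x, y), Gen.a⟩
  let e : V := ⟨(x, x), Gen.e⟩
  have ra : Walk G 1 r a := Walk.single ⟨rfl, h1⟩
  have re : Walk G 1 r e := Walk.single ⟨rfl, h2⟩
  have ea : Walk G 1 e a := Walk.single ⟨rfl, h3⟩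
  have ar : Walk G 1 a r := Walk.single ⟨rfl, h4⟩
  have hcyc : ∀ g, 2 ≤ g → Walk G g r r := by
    intro g
    induction g using Nat.strong_induction_on with
    | _ g ih =>
      intro hg
      by_cases g2 : g = 2
      · subst g2; exact ra.trans ar
      by_cases g3 : g = 3
      · subst g3; exact (re.trans ea).trans ar
      have := (ih (g - 2) (by omega) (by omega)).trans (ra.trans ar)
      have e1 : g - 2 + (1 + 1) = g := by omega
      rwa [e1] at this
  have hout : ∀ p : V, Walk G 3 r p := by
    rintro ⟨⟨p1, p2⟩, hp⟩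
    dsimp only at hp
    induction hp with
    | r => exact hcyc 3 (by omega)
    | a => exact (hcyc 2 le_rfl).trans ra
    | e => exact (hcyc 2 le_rfl).trans re
    | t g h hgh ih =>
      have := hW 3 (fun _ => r) (fun j => ⟨(g j, h j), hgh j⟩) ih
      rwa [hidV] at this
  have hin : ∀ (p : V) (m : ℕ), 4 ≤ m → Walk G m p r := by
    rintro ⟨⟨p1, p2⟩, hp⟩ m hm
    dsimp only at hp
    induction hp with
    | r => exact hcyc m (by omega)
    | a =>
      have := ar.trans (hcyc (m - 1) (by omega))
      have e1 : 1 + (m - 1) = m := by omega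
      rwa [e1] at this
    | e =>
      have := (ea.trans ar).trans (hcyc (m - 2) (by omega))
      have e1 : 1 + 1 + (m - 2) = m := by omega
      rwa [e1] at this
    | t g h hgh ih =>
      have := hW m (fun j => ⟨(g j, h j), hgh j⟩) (fun _ => r) ih
      rwa [hidV] at this
  choose u v hu hv huv using hT
  let P : Fin n → B → B → B := fun i p q => T (fun k => cond (u i k) p q)
  have genP : ∀ i p q p' q', Gen T x y p p' → Gen T x y q q' →
      Gen T x y (P i p q) (P i p' q') := by
    intro i p q p' q' k1 k2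
    apply Gen.t
    intro j
    cases u i j
    · exact k2
    · exact k1
  have RP : ∀ i p q p' q' p'' q'', R p p' p'' → R q q' q'' →
      R (P i p q) (P i p' q') (P i p'' q'') := by
    intro i p q p' q' p'' q'' k1 k2
    apply hR
    intro j
    cases u i j
    · exact k2
    · exact k1
  have Pid : ∀ i p, P i p p = p := by
    intro i p
    show T _ = p
    have : (fun k => cond (u i k) p p) = fun _ => p := by
      funext k; cases u i k <;> rfl
    rw [this, hid]
  let aa : Fin n → B := fun i => P i x y
  let dd : Fin n → B := fun i => P i y x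
  let cc : Fin n → B := fun i => P i (aa i) x
  have g_xa : ∀ i, Gen T x y x (aa i) := by
    intro i
    have := genP i x x x y Gen.e Gen.a
    rwa [Pid] at this
  have g_ad : ∀ i, Gen T x y (aa i) (dd i) := fun i => genP i x y y x Gen.a Gen.r
  have g_xd : ∀ i, Gen T x y x (dd i) := by
    intro i
    have := genP i x x y x Gen.a Gen.e
    rwa [Pid] at this
  have g_xc : ∀ i, Gen T x y x (cc i) := by
    intro i
    have := genP i x x (aa i) x (g_xa i) Gen.e
    rwa [Pid] at this
  have g_ac : ∀ i, Gen T x y (aa i) (cc i) := fun i => genP i x y (aa i) x (g_xa i) Gen.r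
  have r_xda : ∀ i, R x (dd i) (aa i) := by
    intro i
    have := RP i x x y x x y h3 h4
    rwa [Pid] at this
  have r_yax : ∀ i, R y (aa i) x := by
    intro i
    have := RP i y y x y x x h2 h1
    rwa [Pid, Pid] at this
  have r_ycx : ∀ i, R y (cc i) x := by
    intro i
    have := RP i y y (aa i) x x x (r_yax i) h2
    rwa [Pid, Pid] at this
  have r_abc : ∀ i, R (aa i) (P i (dd i) (cc i)) (cc i) :=
    fun i => RP i x y (dd i) (cc i) (aa i) x (r_xda i) (r_ycx i)
  let α : Fin n → Fin n → V := fun i j =>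
    ⟨(cond (u i j) (aa i) x, cond (v i j) (dd i) (cc i)), by
      cases u i j <;> cases v i j
      · exact g_xc i
      · exact g_xd i
      · exact g_ac i
      · exact g_ad i⟩
  have hα : ∀ i, G (α i i) (TV (α i)) := by
    intro i
    constructor
    · show cond (v i i) (dd i) (cc i) = cc i
      rw [hv]; rfl
    · show R (cond (u i i) (aa i) x) (T (fun j => cond (v i j) (dd i) (cc i)))
        (cond (v i i) (dd i) (cc i))
      rw [hu, hv, ← huv]
      exact r_abc i
  obtain ⟨c, hc1, hc2⟩ := local_loop TV G hidV hG hn r 3 (by omega) hout hin hcyc α hα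
  refine ⟨c.1.1, ?_⟩
  rw [hc1] at hc2
  exact hc2

end Pool.Agent.H22Z.Edge
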